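import Pool.Agent.U174.AO.Stm

/-!
# Project AO, package HOM2: back and forth in a countable homogeneous field
-/

set_option autoImplicit false

namespace Pool.Agent.U55.AO.HOM2

open Pool.Agent.U174.AO

variable {N : Type} [Field N]

lemma SameT.symm {F0 : Subfield N} {k : ℕ} {c d : Fin k → N} (h : SameT F0 c d) : SameT F0 d c :=
  fun n φ b hb => (h n φ b hb).symm

/-- the first `k` pairs have the same type -/
def QQ (F0 M : Subfield N) (k : ℕ) (f : ℕ → M × M) : Prop :=
  SameT F0 (fun i : Fin k => ((f i).1 : N)) (fun i : Fin k => ((f i).2 : N))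

lemma snoc_upd {M : Subfield N} (k : ℕ) (f : ℕ → M × M) (p : M × M) (g : M × M → N) :
    (fun i : Fin (k + 1) => g (Function.update f k p i)) =
      Fin.snoc (α := fun _ => N) (fun i : Fin k => g (f i)) (g p) := by
  funext i
  refine Fin.lastCases ?_ (fun j => ?_) i
  · simp
  · have h : ((j : Fin k) : ℕ) ≠ k := j.2.ne
    simp [Function.update_of_ne h]

lemma step {F0 M : Subfield N}
    (H : ∀ (k : ℕ) (c d : Fin k → N), (∀ i, c i ∈ M) → (∀ i, d i ∈ M) → SameT F0 c d →
    ∀ c' ∈ M, ∃ d' ∈ M, SameT F0 (Fin.snoc (α := fun _ => N) c c') (Fin.snoc (α := fun _ => N) d d'))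
    (k : ℕ) (f : ℕ → M × M) (hf : QQ F0 M k f) (b : Bool) (m : M) :
    ∃ p : M × M, (if b then p.1 = m else p.2 = m) ∧ QQ F0 M (k + 1) (Function.update f k p) := by
  cases b
  · obtain ⟨d', hd', h⟩ := H k _ _ (fun i => (f i).2.2) (fun i => (f i).1.2) (SameT.symm hf) m m.2
    refine ⟨(⟨d', hd'⟩, m), by simp, ?_⟩
    unfold QQ
    rw [snoc_upd k f _ (fun q => (q.1 : N)), snoc_upd k f _ (fun q => (q.2 : N))]
    exact SameT.symm h
  · obtain ⟨d', hd', h⟩ := H k _ _ (fun i => (f i).1.2) (fun i => (f i).2.2) hf m m.2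
    refine ⟨(m, ⟨d', hd'⟩), by simp, ?_⟩
    unfold QQ
    rw [snoc_upd k f _ (fun q => (q.1 : N)), snoc_upd k f _ (fun q => (q.2 : N))]
    exact h

theorem t_HOM2 : S_BAS → S_HOM2 := by
  intro _ N _ F0 M hM hF H x y hx hy hxy
  obtain ⟨e, he⟩ := exists_surjective_nat M
  -- the sequence of the states
  let f0 : ℕ → M × M := fun _ => (⟨x, hx⟩, ⟨y, hy⟩)
  have h0 : QQ F0 M 1 f0 := hxy
  let bb : ℕ → Bool := fun k => decide (k % 2 = 0)
  let st : (k : ℕ) → {f : ℕ → M × M // QQ F0 M (k + 1) f} := fun k => Nat.rec ⟨f0, h0⟩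
    (fun k s => ⟨Function.update s.1 (k + 1) (Classical.choose (step H (k + 1) s.1 s.2 (bb k) (e (k / 2)))),
      (Classical.choose_spec (step H (k + 1) s.1 s.2 (bb k) (e (k / 2)))).2⟩) k
  have hst : ∀ k, (st (k + 1)).1 = Function.update (st k).1 (k + 1)
      (Classical.choose (step H (k + 1) (st k).1 (st k).2 (bb k) (e (k / 2)))) := fun k => rfl
  have hch : ∀ k, (if bb k then ((st (k + 1)).1 (k + 1)).1 = e (k / 2)
      else ((st (k + 1)).1 (k + 1)).2 = e (k / 2)) := by
    intro k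
    rw [hst k, Function.update_self]
    exact (Classical.choose_spec (step H (k + 1) (st k).1 (st k).2 (bb k) (e (k / 2)))).1
  obtain ⟨c, hc⟩ : ∃ c : ℕ → M × M, c = fun i => (st i).1 i := ⟨_, rfl⟩
  have hcst : ∀ k i, i ≤ k → (st k).1 i = c i := by
    intro k
    induction k with
    | zero => intro i hi; obtain rfl : i = 0 := by omega
              rw [hc]
    | succ k ih =>
      intro i hi
      rcases Nat.lt_or_ge i (k + 1) with h | h
      · rw [hst k, Function.update_of_ne (by omega)]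
        exact ih i (by omega)
      · obtain rfl : i = k + 1 := by omega
        rw [hc]
  have hQ : ∀ k, QQ F0 M (k + 1) c := by
    intro k
    have h1 := (st k).2
    have e1 : (fun i : Fin (k + 1) => (((st k).1 i).1 : N)) = fun i : Fin (k + 1) => ((c i).1 : N) := by
      funext i; rw [hcst k i (by omega)]
    have e2 : (fun i : Fin (k + 1) => (((st k).1 i).2 : N)) = fun i : Fin (k + 1) => ((c i).2 : N) := by
      funext i; rw [hcst k i (by omega)]
    unfold QQ at h1 ⊢
    rw [e1, e2] at h1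
    exact h1
  have hc0 : c 0 = (⟨x, hx⟩, ⟨y, hy⟩) := by rw [hc]; rfl
  have hs1 : ∀ m : M, ∃ i, (c i).1 = m := by
    intro m
    obtain ⟨n, rfl⟩ := he m
    refine ⟨2 * n + 1, ?_⟩
    have h1 := hch (2 * n)
    have h2 : bb (2 * n) = true := by simp [bb]
    rw [h2, if_pos rfl, hcst _ _ le_rfl] at h1
    rw [h1]
    congr 1
    omega
  have hs2 : ∀ m : M, ∃ i, (c i).2 = m := by
    intro m
    obtain ⟨n, rfl⟩ := he m
    refine ⟨2 * n + 2, ?_⟩
    have h1 := hch (2 * n + 1)
    have h2 : bb (2 * n + 1) = false := by simp [bb]; try omega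
    rw [h2, if_neg (by simp), hcst _ _ le_rfl] at h1
    rw [h1]
    congr 1
    omega
  -- relations
  have heq : ∀ i j, (c i).1 = (c j).1 ↔ (c i).2 = (c j).2 := by
    intro i j
    have h1 := hQ (i + j) 0 (Fm.zero (MvPolynomial.X (Fin.castAdd 0 (⟨i, by omega⟩ : Fin (i + j + 1))) -
      MvPolynomial.X (Fin.castAdd 0 (⟨j, by omega⟩ : Fin (i + j + 1))))) Fin.elim0 (fun i => i.elim0)
    simp only [Fm.Holds, map_sub, MvPolynomial.aeval_X, Fin.append_left, sub_eq_zero] at h1
    exact ⟨fun h => Subtype.ext (h1.1 (congrArg _ h)), fun h => Subtype.ext (h1.2 (congrArg _ h))⟩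
  have hadd : ∀ i j l, (c i).1 + (c j).1 = (c l).1 → (c i).2 + (c j).2 = (c l).2 := by
    intro i j l
    have h1 := hQ (i + j + l) 0 (Fm.zero (MvPolynomial.X (Fin.castAdd 0 (⟨i, by omega⟩ : Fin (i + j + l + 1))) +
      MvPolynomial.X (Fin.castAdd 0 (⟨j, by omega⟩ : Fin (i + j + l + 1))) -
      MvPolynomial.X (Fin.castAdd 0 (⟨l, by omega⟩ : Fin (i + j + l + 1))))) Fin.elim0 (fun i => i.elim0)
    simp only [Fm.Holds, map_sub, map_add, MvPolynomial.aeval_X, Fin.append_left, sub_eq_zero] at h1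
    exact fun h => Subtype.ext (h1.1 (congrArg (fun z : M => (z : N)) h))
  have hmul : ∀ i j l, (c i).1 * (c j).1 = (c l).1 → (c i).2 * (c j).2 = (c l).2 := by
    intro i j l
    have h1 := hQ (i + j + l) 0 (Fm.zero (MvPolynomial.X (Fin.castAdd 0 (⟨i, by omega⟩ : Fin (i + j + l + 1))) *
      MvPolynomial.X (Fin.castAdd 0 (⟨j, by omega⟩ : Fin (i + j + l + 1))) -
      MvPolynomial.X (Fin.castAdd 0 (⟨l, by omega⟩ : Fin (i + j + l + 1))))) Fin.elim0 (fun i => i.elim0)
    simp only [Fm.Holds, map_sub, map_mul, MvPolynomial.aeval_X, Fin.append_left, sub_eq_zero] at h1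
    exact fun h => Subtype.ext (h1.1 (congrArg (fun z : M => (z : N)) h))
  have hfix : ∀ i, ((c i).1 : N) ∈ F0 → (c i).2 = (c i).1 := by
    intro i hi
    have h1 := hQ i 1 (Fm.zero (MvPolynomial.X (Fin.castAdd 1 (⟨i, by omega⟩ : Fin (i + 1))) -
      MvPolynomial.X (Fin.natAdd (i + 1) (0 : Fin 1)))) (fun _ => ((c i).1 : N)) (fun _ => hi)
    simp only [Fm.Holds, map_sub, MvPolynomial.aeval_X, Fin.append_left, Fin.append_right, sub_eq_zero] at h1
    exact Subtype.ext (h1.1 trivial)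
  choose ix hix using hs1
  have hσ : ∀ i, (c (ix (c i).1)).2 = (c i).2 := fun i => (heq _ _).1 (hix _)
  let σ : M ≃+* M := RingEquiv.ofBijective
    ({ toFun := fun m => (c (ix m)).2
       map_one' := by
        have h1 := hmul (ix 1) (ix 1) (ix 1) (by rw [hix]; simp)
        have h2 : (c (ix 1)).2 ≠ 0 := by
          intro h0
          have h3 := hfix (ix 0) (by rw [hix]; exact F0.zero_mem)
          rw [hix] at h3
          have h4 := (heq (ix 1) (ix 0)).2 (by rw [h0, h3])
          rw [hix, hix] at h4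
          exact one_ne_zero h4
        exact mul_left_cancel₀ h2 (by rw [h1, mul_one])
       map_zero' := by
        have h3 := hfix (ix 0) (by rw [hix]; exact F0.zero_mem)
        rw [hix] at h3
        exact h3
       map_add' := fun a b => (hadd (ix a) (ix b) (ix (a + b)) (by rw [hix, hix, hix])).symm
       map_mul' := fun a b => (hmul (ix a) (ix b) (ix (a * b)) (by rw [hix, hix, hix])).symm } : M →+* M)
    ⟨fun a b hab => by
      have h1 := (heq (ix a) (ix b)).2 hab
      rwa [hix, hix] at h1,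
     fun b => by
      obtain ⟨i, hi⟩ := hs2 b
      exact ⟨(c i).1, by rw [← hi]; exact hσ i⟩⟩
  refine ⟨σ, ?_, ?_⟩
  · have h1 := hσ 0
    rw [hc0] at h1
    exact h1
  · intro z hz
    have h1 := hfix (ix z) (by rw [hix]; exact hz)
    rw [hix] at h1
    exact h1

end Pool.Agent.U55.AO.HOM2
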